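import Pool.Agent.Helper24.AS.Tuple

set_option autoImplicit false

namespace Pool.Agent.Helper24.AS

open Finset Pool.Agent.Helper24.AQ

/-- Number of exponent vectors of degree at most `L` with at most `T` active coordinates. -/
noncomputable def nb (n L T : ℕ) : ℕ :=
  ((exps n L).filter (fun f => (univ.filter (fun i => (0 : ℕ) ≠ f i)).card ≤ T)).card

theorem good_far {n k K L T : ℕ} (hkK : k ≤ K) (hK : 2 ≤ K) (p : Fin n → ℕ)
    (hinj : Function.Injective p)
    (hp : ∀ i, (p i).Prime) (hgood : ∀ R ∈ relFam n K (2 * K * L) T, ¬ Rel p R) (A : Finset ℤ)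
    (h0 : (0 : ℤ) ∉ A) (hsub : ∀ a ∈ A, a.natAbs.primeFactors ⊆ univ.image p)
    (hL : ∀ a ∈ A, ∀ b ∈ A, ∑ i, (expo p a i - expo p b i) ≤ L) :
    A.card * A.card ^ k ≤ A.card * (k.factorial * (ksum k A).card) +
      k ^ 2 * nb n L T ^ 2 * A.card ^ k := by
  classical
  have hne : ∀ a ∈ A, a ≠ 0 := fun a ha h => h0 (h ▸ ha)
  obtain ⟨F, hF1, hF2⟩ := far_card (close p T) (fun a b h => by
    unfold close at h ⊢
    refine le_trans (card_le_card ?_) h
    intro i hi
    exact mem_filter.2 ⟨mem_univ _, fun h' => (mem_filter.1 hi).2 h'.symm⟩) A k (nb n L T ^ 2)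
    (by
      intro a ha
      set X := (exps n L).filter (fun f => (univ.filter (fun i => (0 : ℕ) ≠ f i)).card ≤ T) with hX
      have h1 : (A.filter (fun b => close p T a b)).card ≤
          ((univ : Finset Bool) ×ˢ (X ×ˢ X)).card := by
        apply card_le_card_of_injOn (fun b => (decide (0 < b), ((fun i => expo p a i - expo p b i),
          (fun i => expo p b i - expo p a i))))
        · intro b hb
          obtain ⟨hb1, hb2⟩ := mem_filter.1 hb
          rw [Finset.mem_coe, mem_product, mem_product, hX]
          refine ⟨mem_univ _, mem_filter.2 ⟨mem_exps.2 (hL a ha b hb1), ?_⟩,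
            mem_filter.2 ⟨mem_exps.2 (hL b hb1 a ha), ?_⟩⟩
          · refine le_trans (card_le_card ?_) hb2
            intro i hi
            refine mem_filter.2 ⟨mem_univ _, ?_⟩
            have := (mem_filter.1 hi).2
            simp only at this
            omega
          · refine le_trans (card_le_card ?_) hb2
            intro i hi
            refine mem_filter.2 ⟨mem_univ _, ?_⟩
            have := (mem_filter.1 hi).2
            simp only at this
            omega
        · intro b hb b' hb' hbb
          have hbA := (mem_filter.1 hb).1
          have hbA' := (mem_filter.1 hb').1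
          simp only [Prod.mk.injEq, decide_eq_decide] at hbb
          have he : expo p b = expo p b' := by
            ext i
            have h2 := congrFun hbb.2.1 i
            have h3 := congrFun hbb.2.2 i
            omega
          have h4 := val_expo' p hinj b (hne b hbA) (hsub b hbA)
          have h5 := val_expo' p hinj b' (hne b' hbA') (hsub b' hbA')
          rw [he, h5] at h4
          have h6 := hne b hbA
          have h7 := hne b' hbA'
          rcases abs_eq_abs.1 h4 with h | h
          · exact h.symm
          · exfalso
            have h8 := hbb.1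
            rw [h] at h8
            omega
      rw [card_product, card_product, card_univ, Fintype.card_bool] at h1
      unfold nb
      rw [← hX, sq]
      exact h1)
  have h1 : F.card ≤ k.factorial * (ksum k A).card := by
    have h2 := sums_card k F (fun x : ℤ => x) (by
      intro u hu i j hij
      by_contra hne'
      apply (hF1 u hu).2 i j hne'
      unfold close
      rw [hij]
      simp) (by
      intro u hu v hv hs
      exact far_inj hkK hK p hinj hp hgood A h0 hsub hL u v (hF1 u hu).1 (hF1 v hv).1
        (hF1 u hu).2 (hF1 v hv).2 hs)
    refine h2.trans (Nat.mul_le_mul_left _ (card_le_card ?_))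
    intro z hz
    obtain ⟨u, hu, rfl⟩ := mem_image.1 hz
    exact mem_image.2 ⟨u, Fintype.mem_piFinset.2 (hF1 u hu).1, rfl⟩
  exact hF2.trans (Nat.add_le_add_right (Nat.mul_le_mul_left _ h1) _)

end Pool.Agent.Helper24.AS
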