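import Mathlib

set_option autoImplicit false

/-!
Counting tuples of pairwise far elements (after helper88, GP/Far).
-/

namespace Pool.Agent.Helper24.AS

open Finset

theorem pair_count {X : Type*} [DecidableEq X] (cl : X → X → Prop) [DecidableRel cl]
    (B : Finset X) (k H : ℕ)
    (hball : ∀ a ∈ B, (B.filter fun b => cl a b).card ≤ H) {i j : Fin k} (hij : i ≠ j) :
    B.card * ((Fintype.piFinset fun _ : Fin k => B).filter
      (fun u : Fin k → X => cl (u i) (u j))).card ≤ H * B.card ^ k := by
  classical
  rcases B.eq_empty_or_nonempty with hB | ⟨x0, hx0⟩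
  · rw [hB]; simp
  set S := (Fintype.piFinset fun _ : Fin k => B).filter
      (fun u : Fin k → X => cl (u i) (u j)) with hS
  set T := Fintype.piFinset (fun l : Fin k => if l = j then ({x0} : Finset X) else B) with hT
  have hmap : ∀ u ∈ S, Function.update u j x0 ∈ T := by
    intro u hu
    rw [hS, mem_filter, Fintype.mem_piFinset] at hu
    rw [hT, Fintype.mem_piFinset]
    intro l
    by_cases hl : l = j
    · subst hl; simp
    · rw [if_neg hl, Function.update_of_ne hl]; exact hu.1 l
  have hTc : B.card * T.card = B.card ^ k := by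
    rw [hT, Fintype.card_piFinset, ← Finset.mul_prod_erase univ _ (mem_univ j)]
    have h1 : B.card ^ k = ∏ _l : Fin k, B.card := by simp
    rw [h1, ← Finset.mul_prod_erase univ (fun _ : Fin k => B.card) (mem_univ j)]
    rw [if_pos rfl, card_singleton, one_mul]
    congr 1
    refine Finset.prod_congr rfl fun l hl => ?_
    rw [if_neg (Finset.ne_of_mem_erase hl)]
  have hfib : ∀ w ∈ T, (S.filter fun u => Function.update u j x0 = w).card ≤ H := by
    intro w hw
    rw [hT, Fintype.mem_piFinset] at hw
    have hwi : w i ∈ B := by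
      have := hw i
      rwa [if_neg hij] at this
    refine le_trans ?_ (hball (w i) hwi)
    refine Finset.card_le_card_of_injOn (fun u => u j) ?_ ?_
    · intro u hu
      rw [Finset.mem_coe, mem_filter, hS, mem_filter, Fintype.mem_piFinset] at hu
      rw [Finset.mem_coe, mem_filter]
      have h1 : w i = u i := by rw [← hu.2, Function.update_of_ne hij]
      exact ⟨hu.1.1 j, by rw [h1]; exact hu.1.2⟩
    · intro u hu v hv huv
      rw [Finset.mem_coe, mem_filter] at hu hv
      funext l
      by_cases hl : l = j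
      · rw [hl]; exact huv
      · have h1 := congrFun (hu.2.trans hv.2.symm) l
        rwa [Function.update_of_ne hl, Function.update_of_ne hl] at h1
  have hsum : S.card = ∑ w ∈ T, (S.filter fun u => Function.update u j x0 = w).card :=
    Finset.card_eq_sum_card_fiberwise hmap
  calc B.card * S.card = B.card * ∑ w ∈ T, (S.filter fun u => Function.update u j x0 = w).card := by
        rw [← hsum]
    _ ≤ B.card * ∑ _w ∈ T, H := Nat.mul_le_mul_left _ (Finset.sum_le_sum hfib)
    _ = H * (B.card * T.card) := by rw [Finset.sum_const, smul_eq_mul]; ring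
    _ = H * B.card ^ k := by rw [hTc]

theorem pairs_card (k : ℕ) :
    2 * ((univ : Finset (Fin k × Fin k)).filter fun p => p.1 < p.2).card ≤ k ^ 2 := by
  classical
  set A := (univ : Finset (Fin k × Fin k)).filter fun p => p.1 < p.2 with hA
  set A' := A.image Prod.swap with hA'
  have hc : A'.card = A.card := Finset.card_image_of_injective _ Prod.swap_injective
  have hd : Disjoint A A' := by
    rw [Finset.disjoint_left]
    intro p hp hp'
    rw [hA', mem_image] at hp'
    obtain ⟨q, hq, rfl⟩ := hp'
    rw [hA, mem_filter] at hq hp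
    exact lt_asymm hq.2 hp.2
  have h1 : (A ∪ A').card ≤ (univ : Finset (Fin k × Fin k)).card := Finset.card_le_univ _
  rw [Finset.card_union_of_disjoint hd, hc] at h1
  have h2 : (univ : Finset (Fin k × Fin k)).card = k ^ 2 := by
    rw [Finset.card_univ, Fintype.card_prod, Fintype.card_fin]; ring
  omega

/-- The number of far tuples. -/
theorem far_card {X : Type*} [DecidableEq X] (cl : X → X → Prop) [DecidableRel cl]
    (hsymm : ∀ a b, cl a b → cl b a) (B : Finset X) (k H : ℕ)
    (hball : ∀ a ∈ B, (B.filter fun b => cl a b).card ≤ 2 * H) :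
    ∃ F : Finset (Fin k → X),
      (∀ u ∈ F, (∀ i, u i ∈ B) ∧ ∀ i j, i ≠ j → ¬ cl (u i) (u j)) ∧
      B.card * B.card ^ k ≤ B.card * F.card + k ^ 2 * H * B.card ^ k := by
  classical
  set U := (Fintype.piFinset fun _ : Fin k => B) with hU
  set p : (Fin k → X) → Prop := fun u => ∀ i j, i ≠ j → ¬ cl (u i) (u j) with hp
  refine ⟨U.filter p, fun u hu => ⟨Fintype.mem_piFinset.1 (mem_filter.1 hu).1,
    (mem_filter.1 hu).2⟩, ?_⟩
  set A := (univ : Finset (Fin k × Fin k)).filter fun q => q.1 < q.2 with hA
  have hUc : U.card = B.card ^ k := by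
    rw [hU, Fintype.card_piFinset]; simp
  have hsplit : (U.filter p).card + (U.filter fun u => ¬ p u).card = U.card :=
    Finset.card_filter_add_card_filter_not (s := U) p
  have hsub : (U.filter fun u => ¬ p u) ⊆
      A.biUnion fun q => U.filter fun u : Fin k → X => cl (u q.1) (u q.2) := by
    intro u hu
    obtain ⟨hu1, hu2⟩ := mem_filter.1 hu
    rw [hp] at hu2
    push Not at hu2
    obtain ⟨i, j, hij, hle⟩ := hu2
    rw [mem_biUnion]
    rcases lt_or_gt_of_ne hij with h | h
    · exact ⟨(i, j), mem_filter.2 ⟨mem_univ _, h⟩, mem_filter.2 ⟨hu1, hle⟩⟩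
    · exact ⟨(j, i), mem_filter.2 ⟨mem_univ _, h⟩, mem_filter.2 ⟨hu1, hsymm _ _ hle⟩⟩
  have hbad : B.card * (U.filter fun u => ¬ p u).card ≤ A.card * (2 * H * B.card ^ k) := by
    calc B.card * (U.filter fun u => ¬ p u).card
        ≤ B.card * ∑ q ∈ A, (U.filter fun u : Fin k → X => cl (u q.1) (u q.2)).card :=
          Nat.mul_le_mul_left _ ((Finset.card_le_card hsub).trans Finset.card_biUnion_le)
      _ = ∑ q ∈ A, B.card * (U.filter fun u : Fin k → X => cl (u q.1) (u q.2)).card := by
          rw [Finset.mul_sum]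
      _ ≤ ∑ _q ∈ A, 2 * H * B.card ^ k := by
          refine Finset.sum_le_sum fun q hq => ?_
          exact pair_count cl B k (2 * H) hball (ne_of_lt (mem_filter.1 hq).2)
      _ = A.card * (2 * H * B.card ^ k) := by rw [Finset.sum_const, smul_eq_mul]
  have h2 := pairs_card k
  have h3 : A.card * (2 * H * B.card ^ k) ≤ k ^ 2 * H * B.card ^ k := by
    calc A.card * (2 * H * B.card ^ k) = (2 * A.card) * (H * B.card ^ k) := by ring
      _ ≤ k ^ 2 * (H * B.card ^ k) := Nat.mul_le_mul_right _ h2
      _ = k ^ 2 * H * B.card ^ k := by ring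
  have h4 : B.card * B.card ^ k =
      B.card * (U.filter p).card + B.card * (U.filter fun u => ¬ p u).card := by
    rw [← Nat.mul_add, hsplit, hUc]
  rw [h4]
  exact Nat.add_le_add_left (hbad.trans h3) _

theorem sums_card {X : Type*} [DecidableEq X] (k : ℕ) (F : Finset (Fin k → X)) (f : X → ℤ)
    (hF : ∀ u ∈ F, Function.Injective u)
    (hFs : ∀ u ∈ F, ∀ v ∈ F, ∑ i, f (u i) = ∑ i, f (v i) → univ.image u ⊆ univ.image v) :
    F.card ≤ k.factorial * (F.image (fun u => ∑ i, f (u i))).card := by
  refine Finset.card_le_mul_card_image F k.factorial fun b hb => ?_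
  obtain ⟨v, hv, rfl⟩ := Finset.mem_image.1 hb
  have hsub : (F.filter fun u => ∑ i, f (u i) = ∑ i, f (v i)) ⊆
      (univ : Finset (Equiv.Perm (Fin k))).image (fun σ : Equiv.Perm (Fin k) => v ∘ ⇑σ) := by
    intro u hu
    obtain ⟨hu1, hu2⟩ := Finset.mem_filter.1 hu
    have h1 := hFs u hu1 v hv hu2
    have h2 : ∀ i, ∃ j, v j = u i := fun i => by
      have h3 : u i ∈ univ.image v := h1 (Finset.mem_image_of_mem u (Finset.mem_univ i))
      obtain ⟨j, -, hj⟩ := Finset.mem_image.1 h3
      exact ⟨j, hj⟩
    choose g hg using h2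
    have hinj : Function.Injective g := fun i i' h => hF u hu1 (by rw [← hg i, ← hg i', h])
    rw [Finset.mem_image]
    refine ⟨Equiv.ofBijective g (Finite.injective_iff_bijective.1 hinj), Finset.mem_univ _, ?_⟩
    funext i
    exact hg i
  refine (Finset.card_le_card hsub).trans (Finset.card_image_le.trans (le_of_eq ?_))
  rw [Finset.card_univ, Fintype.card_perm, Fintype.card_fin]

end Pool.Agent.Helper24.AS
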