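import Pool.Agent.Helper24.AS.Main
import Pool.Agent.Helper24.AQ.Clear

set_option autoImplicit false

namespace Pool.Agent.Helper24.AS

open Finset Pool.Agent.Helper24.AQ

theorem sum_fac_le {n : ℕ} (p : Fin n → ℕ) (hinj : Function.Injective p) (r : ℕ) :
    ∑ i, r.factorization (p i) ≤ r.primeFactorsList.length := by
  classical
  rw [← ArithmeticFunction.cardFactors_apply, ArithmeticFunction.cardFactors_eq_sum_factorization]
  have h2 : ∑ i, r.factorization (p i) = ∑ q ∈ univ.image p, r.factorization q := by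
    rw [sum_image (fun x _ y _ h => hinj h)]
  rw [h2, Finsupp.sum]
  have h3 : ∑ q ∈ univ.image p, r.factorization q =
      ∑ q ∈ (univ.image p).filter (fun q => r.factorization q ≠ 0), r.factorization q := by
    rw [sum_filter]
    refine sum_congr rfl (fun q _ => ?_)
    split_ifs with h
    · rfl
    · rw [not_not] at h
      exact h
  rw [h3]
  apply sum_le_sum_of_subset_of_nonneg
  · intro q hq
    exact Finsupp.mem_support_iff.2 (mem_filter.1 hq).2
  · intro _ _ _
    exact Nat.zero_le _

/-- The numerator of `a / b`. -/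
theorem num_fac (a b : ℤ) (ha : a ≠ 0) (hb : b ≠ 0) (q : ℕ) (hq : q.Prime) :
    ((a : ℚ) / b).num.natAbs.factorization q =
      a.natAbs.factorization q - b.natAbs.factorization q := by
  set r : ℚ := (a : ℚ) / b with hr
  have hbq : (b : ℚ) ≠ 0 := by exact_mod_cast hb
  have haq : (a : ℚ) ≠ 0 := by exact_mod_cast ha
  have hr0 : r ≠ 0 := div_ne_zero haq hbq
  have hnum : r.num.natAbs ≠ 0 := Int.natAbs_ne_zero.2 (Rat.num_ne_zero.2 hr0)
  have hden : r.den ≠ 0 := r.den_nz
  have h1 : r.num * b = a * r.den := by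
    have h2 : (r.num : ℚ) / r.den = a / b := by rw [Rat.num_div_den, hr]
    have hd : (r.den : ℚ) ≠ 0 := by exact_mod_cast hden
    rw [div_eq_div_iff hd hbq] at h2
    exact_mod_cast h2
  have h2 : r.num.natAbs * b.natAbs = a.natAbs * r.den := by
    have := congrArg Int.natAbs h1
    rwa [Int.natAbs_mul, Int.natAbs_mul, Int.natAbs_natCast] at this
  have h3 : r.num.natAbs.factorization q + b.natAbs.factorization q =
      a.natAbs.factorization q + r.den.factorization q := by
    rw [← Finsupp.add_apply, ← Finsupp.add_apply,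
      ← Nat.factorization_mul hnum (Int.natAbs_ne_zero.2 hb),
      ← Nat.factorization_mul (Int.natAbs_ne_zero.2 ha) hden, h2]
  have h4 : r.num.natAbs.factorization q = 0 ∨ r.den.factorization q = 0 := by
    by_contra hno
    push Not at hno
    have h5 : q ∣ r.num.natAbs := Nat.dvd_of_factorization_pos hno.1
    have h6 : q ∣ r.den := Nat.dvd_of_factorization_pos hno.2
    have h7 := Nat.dvd_gcd h5 h6
    rw [r.reduced] at h7
    exact hq.one_lt.ne' (Nat.dvd_one.1 h7)
  omega

theorem final (k : ℕ) (hk : 1 ≤ k) :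
    ∃ c : ℝ, 0 < c ∧ ∀ (y : ℕ) (Q : Finset ℕ), (∀ q ∈ Q, q.Prime ∧ q ≤ y) →
      ∀ n : ℕ, 1 ≤ n → (n : ℝ) ≤ c * Q.card → (y : ℝ) ^ (((n : ℝ) / Q.card) ^ c) ≤ Q.card →
      ∃ B ⊆ Q.powersetCard n,
        (B.card : ℝ) ≤ ((n : ℝ) / Q.card) ^ (c + (n : ℝ) ^ 2 / Q.card) *
          (Q.powersetCard n).card ∧
        ∀ P ∈ Q.powersetCard n, P ∉ B → ∀ A : Finset ℤ, (0 : ℤ) ∉ A →
          (∀ a ∈ A, ∀ b ∈ A, ((a : ℚ) / b).num.natAbs.primeFactors ⊆ P ∧
            ((((a : ℚ) / b).num.natAbs.primeFactorsList.length : ℕ) : ℝ) ≤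
              n * ((Q.card : ℝ) / n) ^ c) →
          Real.exp (n * ((n : ℝ) / Q.card) ^ c) ≤ A.card →
          (1 - (k : ℝ) ^ 2 / Real.sqrt A.card) * ((A.card : ℝ) ^ k / k.factorial) ≤
            (ksum k A).card := by
  classical
  obtain ⟨s, δ0, hs0, hs1, hδ0, hδ1, hcore⟩ := core (k + 1) (by omega)
  have hfac : (0 : ℝ) < k.factorial := by exact_mod_cast k.factorial_pos
  set c : ℝ := min δ0 s with hc
  have hc0 : 0 < c := lt_min hδ0 hs0
  have hc1 : c ≤ δ0 := min_le_left _ _
  have hc2 : c ≤ s := min_le_right _ _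
  refine ⟨c, hc0, ?_⟩
  intro y Q hQ n hn hnc hQc
  have hn0 : (0 : ℝ) < n := by exact_mod_cast hn
  have hQ0 : (0 : ℝ) < Q.card := by
    by_contra h
    have h1 : (Q.card : ℝ) = 0 := le_antisymm (not_lt.1 h) (Nat.cast_nonneg _)
    rw [h1, mul_zero] at hnc
    linarith
  set d : ℝ := (n : ℝ) / Q.card with hd
  have hd0 : 0 < d := div_pos hn0 hQ0
  have hdc : d ≤ c := by rw [hd, div_le_iff₀ hQ0]; exact hnc
  have hd1 : d ≤ 1 := by linarith
  have hinv : (Q.card : ℝ) / n = d⁻¹ := by rw [hd, inv_div]
  have hinvc : ((Q.card : ℝ) / n) ^ c ≤ d ^ (-s) := by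
    rw [hinv, Real.inv_rpow hd0.le, ← Real.rpow_neg hd0.le]
    exact Real.rpow_le_rpow_of_exponent_ge hd0 hd1 (by linarith)
  set L : ℕ := ⌊n * d ^ (-s)⌋₊ with hLdef
  have hLle : (L : ℝ) ≤ n * d ^ (-s) :=
    Nat.floor_le (mul_nonneg hn0.le (Real.rpow_pos_of_pos hd0 _).le)
  obtain ⟨T, S, hScard, hSgood, hnb⟩ :=
    hcore y Q hQ n hn d hd hd0 (le_trans hdc hc1) (by
      refine le_trans ?_ hQc
      have hy : (1 : ℝ) ≤ y := by
        have h0 : 0 < Q.card := by exact_mod_cast hQ0
        obtain ⟨q, hq⟩ := card_pos.1 h0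
        have h2 := (hQ q hq).1.one_le
        have h3 := (hQ q hq).2
        exact_mod_cast le_trans h2 h3
      apply Real.rpow_le_rpow_of_exponent_le hy
      exact Real.rpow_le_rpow_of_exponent_ge hd0 hd1 hc2) L hLle
  set B := (Q.powersetCard n).filter (fun P => ∀ p : Fin n → ℕ, Function.Injective p →
    univ.image p = P → p ∈ S) with hB
  refine ⟨B, filter_subset _ _, ?_, ?_⟩
  · have h1 : n.factorial * B.card ≤ S.card :=
      subset_count Q B (filter_subset _ _) S (fun P hP => (mem_filter.1 hP).2)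
    have h2 : 2 * n ≤ Q.card := by
      have : (2 * n : ℝ) ≤ Q.card := by
        have h3 : (n : ℝ) = d * Q.card := by rw [hd]; field_simp
        have h4 : d * Q.card ≤ 1 / 3 * Q.card := mul_le_mul_of_nonneg_right (by linarith) hQ0.le
        linarith
      exact_mod_cast this
    have h3 := pow_le_choose_exp Q.card n hn h2
    have hf : (0 : ℝ) < n.factorial := by exact_mod_cast n.factorial_pos
    have h4 : ((n.factorial : ℕ) : ℝ) * B.card ≤ S.card := by exact_mod_cast h1
    have h5 : (S.card : ℝ) * Real.exp (2 * d * n) ≤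
        (d ^ (s + d * n) * (n.factorial * (Q.card.choose n : ℕ))) * Real.exp (2 * d * n) := by
      refine le_trans hScard ?_
      refine le_trans (mul_le_mul_of_nonneg_left h3 (Real.rpow_pos_of_pos hd0 _).le) ?_
      apply le_of_eq
      ring
    have h6 := le_of_mul_le_mul_right h5 (Real.exp_pos _)
    have h7 : (B.card : ℝ) ≤ d ^ (s + d * n) * (Q.card.choose n : ℕ) := by
      have h8 : ((n.factorial : ℕ) : ℝ) * B.card ≤
          n.factorial * (d ^ (s + d * n) * (Q.card.choose n : ℕ)) := by
        refine le_trans h4 (le_trans h6 (le_of_eq ?_))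
        ring
      exact le_of_mul_le_mul_left h8 hf
    rw [card_powersetCard]
    refine le_trans h7 ?_
    apply mul_le_mul_of_nonneg_right _ (Nat.cast_nonneg _)
    apply Real.rpow_le_rpow_of_exponent_ge hd0 hd1
    have h8 : (n : ℝ) ^ 2 / Q.card = d * n := by rw [hd]; ring
    rw [h8]
    linarith
  · intro P hP hPB A hA0' hA hAcard
    have h1 : ¬ ∀ p : Fin n → ℕ, Function.Injective p → univ.image p = P → p ∈ S :=
      fun h => hPB (mem_filter.2 ⟨hP, h⟩)
    push Not at h1
    obtain ⟨p, hinj, himg, hpS⟩ := h1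
    have hpQ : ∀ i, p i ∈ Q := fun i =>
      (mem_powersetCard.1 hP).1 (himg ▸ mem_image_of_mem p (mem_univ i))
    have hpP : ∀ i, p i ∈ P := fun i => himg ▸ mem_image_of_mem p (mem_univ i)
    have hPp : ∀ q ∈ P, q.Prime := fun q hq => (hQ q ((mem_powersetCard.1 hP).1 hq)).1
    have hgood := hSgood p hpQ hpS
    have hA0 : (0 : ℝ) < A.card := lt_of_lt_of_le (Real.exp_pos _) hAcard
    -- the neighbourhoods
    have hNA : (nb n L T : ℝ) ^ 2 ≤ Real.sqrt A.card := by
      refine le_trans hnb ?_
      apply Real.le_sqrt_of_sq_le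
      rw [← Real.exp_nat_mul]
      refine le_trans (Real.exp_le_exp.2 ?_) hAcard
      push_cast
      have h2 : d ^ s ≤ d ^ c := Real.rpow_le_rpow_of_exponent_ge hd0 hd1 hc2
      have h3 : n * d ^ s ≤ n * d ^ c := mul_le_mul_of_nonneg_left h2 hn0.le
      linarith
    -- the valuations
    have hne : ∀ a ∈ A, a ≠ 0 := fun a ha h => hA0' (h ▸ ha)
    have hout : ∀ a ∈ A, ∀ b ∈ A, ∀ q : ℕ, q ∉ P →
        a.natAbs.factorization q = b.natAbs.factorization q := by
      intro a ha b hb q hq
      by_cases hqp : q.Prime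
      · have h2 := num_fac a b (hne a ha) (hne b hb) q hqp
        have h3 := num_fac b a (hne b hb) (hne a ha) q hqp
        have h4 : ((a : ℚ) / b).num.natAbs.factorization q = 0 := by
          by_contra hno
          apply hq
          apply (hA a ha b hb).1
          rw [← Nat.support_factorization]
          exact Finsupp.mem_support_iff.2 hno
        have h5 : ((b : ℚ) / a).num.natAbs.factorization q = 0 := by
          by_contra hno
          apply hq
          apply (hA b hb a ha).1
          rw [← Nat.support_factorization]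
          exact Finsupp.mem_support_iff.2 hno
        omega
      · rw [Nat.factorization_eq_zero_of_not_prime _ hqp,
          Nat.factorization_eq_zero_of_not_prime _ hqp]
    have hdiff : ∀ a ∈ A, ∀ b ∈ A,
        ∑ i, (a.natAbs.factorization (p i) - b.natAbs.factorization (p i)) ≤ L := by
      intro a ha b hb
      have h2 : ∑ i, (a.natAbs.factorization (p i) - b.natAbs.factorization (p i)) =
          ∑ i, ((a : ℚ) / b).num.natAbs.factorization (p i) :=
        sum_congr rfl (fun i _ =>
          (num_fac a b (hne a ha) (hne b hb) (p i) (hQ _ (hpQ i)).1).symm)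
      rw [h2]
      refine le_trans (sum_fac_le p hinj _) ?_
      apply Nat.le_floor
      refine le_trans (hA a ha b hb).2 ?_
      exact mul_le_mul_of_nonneg_left hinvc hn0.le
    -- pass to integers composed of primes of `P`
    have hAne : A.Nonempty := by
      rw [← card_pos]
      exact_mod_cast hA0
    obtain ⟨g, hg⟩ := hAne
    have hg0 : g ≠ 0 := hne g hg
    set m : ℕ := g.natAbs with hm
    set D : ℤ := ((∏ q ∈ P, q ^ m : ℕ) : ℤ) with hD
    have hD0 : D ≠ 0 := by
      rw [hD]
      exact_mod_cast prod_ne_zero_iff.2 (fun q hq => pow_ne_zero _ (hPp q hq).ne_zero)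
    have hcl : ∀ a ∈ A, ∃ b : ℤ, b ≠ 0 ∧ g * b = D * a ∧ b.natAbs.primeFactors ⊆ P ∧
        ∀ q ∈ P, g.natAbs.factorization q + b.natAbs.factorization q =
          m + a.natAbs.factorization q := by
      intro a ha
      apply clear P hPp m g a hg0 (hne a ha)
      · intro q
        exact (Nat.factorization_lt q (Int.natAbs_ne_zero.2 hg0)).le
      · intro q hq
        exact hout a ha g hg q hq
    choose! f hf using hcl
    have hinjf : Set.InjOn f A := by
      intro a ha b hb hab
      have h1 := (hf a ha).2.1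
      have h2 := (hf b hb).2.1
      rw [hab, h2] at h1
      exact (mul_left_cancel₀ hD0 h1).symm
    have hcard : (A.image f).card = A.card := card_image_of_injOn hinjf
    have himg2 : (A.image f).image (fun a => g * a) = A.image (fun a => D * a) := by
      rw [image_image]
      apply image_congr
      intro a ha
      exact (hf a ha).2.1
    have hk1 : (ksum k (A.image f)).card = (ksum k A).card := by
      rw [← ksum_mul k (A.image f) g hg0, himg2, ksum_mul k A D hD0]
    have h2 := good_far (k := k) (by omega : k ≤ k + 1) (by omega) p hinj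
      (fun i => (hQ _ (hpQ i)).1) hgood (A.image f)
      (by
        intro h
        obtain ⟨a, ha, ha0⟩ := mem_image.1 h
        exact (hf a ha).1 ha0)
      (by
        intro b hb
        obtain ⟨a, ha, rfl⟩ := mem_image.1 hb
        rw [himg]
        exact (hf a ha).2.2.1)
      (by
        intro b hb b' hb'
        obtain ⟨a, ha, rfl⟩ := mem_image.1 hb
        obtain ⟨a', ha', rfl⟩ := mem_image.1 hb'
        refine le_trans (sum_le_sum (fun i _ => ?_)) (hdiff a ha a' ha')
        unfold expo
        have h3 := (hf a ha).2.2.2 (p i) (hpP i)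
        have h4 := (hf a' ha').2.2.2 (p i) (hpP i)
        omega)
    rw [hcard, hk1] at h2
    have h3 : (A.card : ℝ) * (A.card : ℝ) ^ k ≤ A.card * (k.factorial * (ksum k A).card) +
        k ^ 2 * (nb n L T : ℝ) ^ 2 * (A.card : ℝ) ^ k := by exact_mod_cast h2
    have hsq : Real.sqrt A.card * Real.sqrt A.card = A.card := Real.mul_self_sqrt hA0.le
    have hsq0 : 0 < Real.sqrt A.card := Real.sqrt_pos.2 hA0
    have hAk : (0 : ℝ) ≤ (A.card : ℝ) ^ k := pow_nonneg hA0.le _
    have h4 : (k : ℝ) ^ 2 * (nb n L T : ℝ) ^ 2 * (A.card : ℝ) ^ k ≤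
        k ^ 2 * Real.sqrt A.card * (A.card : ℝ) ^ k :=
      mul_le_mul_of_nonneg_right (mul_le_mul_of_nonneg_left hNA (by positivity)) hAk
    have h5 : (A.card : ℝ) * ((1 - (k : ℝ) ^ 2 / Real.sqrt A.card) *
        ((A.card : ℝ) ^ k / k.factorial)) ≤ A.card * (ksum k A).card := by
      have h6 : (A.card : ℝ) * ((1 - (k : ℝ) ^ 2 / Real.sqrt A.card) *
          ((A.card : ℝ) ^ k / k.factorial)) =
          (A.card * (A.card : ℝ) ^ k - k ^ 2 * Real.sqrt A.card * (A.card : ℝ) ^ k) /
            k.factorial := by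
        have h7 : (A.card : ℝ) * ((k : ℝ) ^ 2 / Real.sqrt A.card) = k ^ 2 * Real.sqrt A.card := by
          rw [← mul_div_assoc, div_eq_iff hsq0.ne']
          calc (A.card : ℝ) * (k : ℝ) ^ 2 = (Real.sqrt A.card * Real.sqrt A.card) * k ^ 2 := by
                rw [hsq]
            _ = k ^ 2 * Real.sqrt A.card * Real.sqrt A.card := by ring
        calc (A.card : ℝ) * ((1 - (k : ℝ) ^ 2 / Real.sqrt A.card) *
              ((A.card : ℝ) ^ k / k.factorial)) =
              (A.card - (A.card : ℝ) * ((k : ℝ) ^ 2 / Real.sqrt A.card)) *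
                ((A.card : ℝ) ^ k / k.factorial) := by ring
          _ = _ := by rw [h7]; ring
      rw [h6, div_le_iff₀ hfac]
      have h7 : (A.card : ℝ) * (ksum k A).card * k.factorial =
          A.card * (k.factorial * (ksum k A).card) := by ring
      rw [h7]
      linarith
    exact le_of_mul_le_mul_left h5 hA0

end Pool.Agent.Helper24.AS
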