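import Pool.Agent.Helper24.AQ.Bk

set_option autoImplicit false

namespace Pool.Agent.Helper24.AS

open Finset Pool.Agent.Helper24.AQ

/-- If no relation with more than `T` active primes holds, then a minimal vanishing subsum has only
exponent vectors which are close to each other. -/
theorem minrel {n K L T : ℕ} (p : Fin n → ℕ) (hp : ∀ i, 1 ≤ p i) (V : Finset (Fin n → ℕ))
    (c : (Fin n → ℕ) → ℤ) (hc0 : ∀ v ∈ V, c v ≠ 0) (hck : ∀ v, |c v| ≤ K)
    (hVcard : V.card ≤ 2 * K) (hVne : V.Nonempty) (hV0 : ∑ v ∈ V, c v * val p v = 0)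
    (hE : ∀ e ∈ V, ∀ e' ∈ V, ∑ i, (e i - e' i) ≤ L)
    (hgood : ∀ R ∈ relFam n K (2 * K * L) T, ¬ Rel p R) :
    ∃ B ⊆ V, B.Nonempty ∧ ∑ v ∈ B, c v * val p v = 0 ∧
      ∀ v ∈ B, ∀ w ∈ B, (univ.filter (fun i => v i ≠ w i)).card ≤ T := by
  classical
  obtain ⟨B, hB, hBmin⟩ := exists_min_image
    (V.powerset.filter (fun B => B.Nonempty ∧ ∑ v ∈ B, c v * val p v = 0)) (fun B => B.card)
    ⟨V, mem_filter.2 ⟨mem_powerset.2 (subset_refl _), hVne, hV0⟩⟩
  obtain ⟨hBV, hBne, hB0⟩ := mem_filter.1 hB
  rw [mem_powerset] at hBV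
  refine ⟨B, hBV, hBne, hB0, ?_⟩
  intro v0 hv0 v1 hv1
  by_contra hfar
  push Not at hfar
  have hval : ∀ v, 0 < val p v := fun v => val_pos p v hp
  set μ : Fin n → ℕ := fun i => B.inf' hBne (fun v => v i) with hμ
  have hμle : ∀ v ∈ B, ∀ i, μ i ≤ v i := fun v hv i => inf'_le (fun v : Fin n → ℕ => v i) hv
  set g : (Fin n → ℕ) → (Fin n → ℕ) × ℤ := fun v => (fun i => v i - μ i, c v) with hg
  have hginj : Set.InjOn g B := by
    intro v hv v' hv' h
    rw [hg] at h
    simp only [Prod.mk.injEq] at h
    ext i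
    have h1 := congrFun h.1 i
    have h2 := hμle v hv i
    have h3 := hμle v' hv' i
    omega
  have hvalg : ∀ v ∈ B, val p v = val p (g v).1 * val p μ := by
    intro v hv
    rw [← val_mul]
    congr 1
    ext i
    have := hμle v hv i
    rw [hg]
    simp only
    omega
  have hsumg : ∀ B' ⊆ B, (∑ x ∈ B'.image g, x.2 * val p x.1) * val p μ =
      ∑ v ∈ B', c v * val p v := by
    intro B' hB'
    rw [sum_image (fun v hv v' hv' h => hginj (hB' hv) (hB' hv') h), sum_mul]
    refine sum_congr rfl (fun v hv => ?_)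
    rw [hvalg v (hB' hv), hg]
    ring
  apply hgood (B.image g)
  · rw [mem_relFam]
    refine ⟨?_, ?_, ?_, ?_⟩
    · intro x hx
      obtain ⟨v, hv, rfl⟩ := mem_image.1 hx
      rw [mem_product]
      refine ⟨?_, ?_⟩
      · rw [mem_exps]
        have h1 : ∀ i : Fin n, (g v).1 i ≤ ∑ w ∈ B, (v i - w i) := by
          intro i
          obtain ⟨w, hw, hwi⟩ := exists_mem_eq_inf' hBne (fun w : Fin n → ℕ => w i)
          have h2 : (g v).1 i = v i - w i := by
            rw [hg]
            simp only
            rw [hμ]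
            simp only
            rw [hwi]
          rw [h2]
          exact single_le_sum (f := fun w : Fin n → ℕ => v i - w i) (fun _ _ => Nat.zero_le _) hw
        calc ∑ i, (g v).1 i ≤ ∑ i, ∑ w ∈ B, (v i - w i) := sum_le_sum (fun i _ => h1 i)
          _ = ∑ w ∈ B, ∑ i, (v i - w i) := sum_comm
          _ ≤ ∑ _w ∈ B, L := sum_le_sum (fun w hw => hE v (hBV hv) w (hBV hw))
          _ = B.card * L := by rw [sum_const, smul_eq_mul]
          _ ≤ 2 * K * L := Nat.mul_le_mul_right _ (le_trans (card_le_card hBV) hVcard)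
      · rw [mem_Icc]
        exact abs_le.1 (hck v)
    · rw [card_image_of_injOn hginj]
      exact le_trans (card_le_card hBV) hVcard
    · intro i
      obtain ⟨v, hv, hvi⟩ := exists_mem_eq_inf' hBne (fun v : Fin n → ℕ => v i)
      refine ⟨g v, mem_image_of_mem g hv, ?_⟩
      rw [hg]
      simp only
      rw [hμ]
      simp only
      rw [hvi, Nat.sub_self]
    · refine lt_of_lt_of_le hfar (card_le_card ?_)
      intro i hi
      have hi' := (mem_filter.1 hi).2
      rw [mem_act]
      have h0 := hμle v0 hv0 i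
      have h1 := hμle v1 hv1 i
      by_cases h : v0 i = μ i
      · refine ⟨g v1, mem_image_of_mem g hv1, ?_⟩
        rw [hg]
        simp only
        omega
      · refine ⟨g v0, mem_image_of_mem g hv0, ?_⟩
        rw [hg]
        simp only
        omega
  · constructor
    · have h1 := hsumg B (subset_refl _)
      rw [hB0] at h1
      rcases mul_eq_zero.1 h1 with h | h
      · exact h
      · exact absurd h (hval μ).ne'
    · intro S hSR hSne hS0
      set B' := B.filter (fun v => g v ∈ S) with hB'
      have hSB : B'.image g = S := by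
        ext x
        constructor
        · intro hx
          obtain ⟨v, hv, rfl⟩ := mem_image.1 hx
          exact (mem_filter.1 hv).2
        · intro hx
          obtain ⟨v, hv, rfl⟩ := mem_image.1 (hSR.1 hx)
          exact mem_image_of_mem g (mem_filter.2 ⟨hv, hx⟩)
      have hB'0 : ∑ v ∈ B', c v * val p v = 0 := by
        rw [← hsumg B' (filter_subset _ _), hSB, hS0, zero_mul]
      have hB'ne : B'.Nonempty := by
        by_contra hem
        rw [not_nonempty_iff_eq_empty] at hem
        rw [hem, image_empty] at hSB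
        rw [← hSB] at hSne
        exact not_nonempty_empty hSne
      have h1 := hBmin B' (mem_filter.2 ⟨mem_powerset.2 ((filter_subset _ _).trans hBV),
        hB'ne, hB'0⟩)
      have h2 : S.card < (B.image g).card := card_lt_card hSR
      rw [← hSB, card_image_of_injOn (hginj.mono (by exact_mod_cast filter_subset _ _)),
        card_image_of_injOn hginj] at h2
      omega

end Pool.Agent.Helper24.AS
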