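import Pool.Agent.Helper24.AS.Min
import Pool.Agent.Helper24.AS.Far
import Pool.Agent.Helper24.AQ.Good

set_option autoImplicit false

namespace Pool.Agent.Helper24.AS

open Finset Pool.Agent.Helper24.AQ

theorem val_expo' {n : ℕ} (p : Fin n → ℕ) (hinj : Function.Injective p) (a : ℤ) (ha : a ≠ 0)
    (hsub : a.natAbs.primeFactors ⊆ univ.image p) : val p (expo p a) = |a| := by
  have h1 := val_expo p hinj |a| (abs_pos.2 ha) (by rwa [Int.natAbs_abs])
  have h2 : expo p |a| = expo p a := by
    unfold expo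
    rw [Int.natAbs_abs]
  rwa [h2] at h1

/-- Coordinates where the exponents of `a` and `b` differ. -/
def close {n : ℕ} (p : Fin n → ℕ) (T : ℕ) (a b : ℤ) : Prop :=
  (univ.filter (fun i => expo p a i ≠ expo p b i)).card ≤ T

/-- Far tuples with equal sums have the same elements. -/
theorem far_inj {n k K L T : ℕ} (hkK : k ≤ K) (hK : 2 ≤ K) (p : Fin n → ℕ)
    (hinj : Function.Injective p)
    (hp : ∀ i, (p i).Prime) (hgood : ∀ R ∈ relFam n K (2 * K * L) T, ¬ Rel p R) (A : Finset ℤ)
    (h0 : (0 : ℤ) ∉ A) (hsub : ∀ a ∈ A, a.natAbs.primeFactors ⊆ univ.image p)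
    (hL : ∀ a ∈ A, ∀ b ∈ A, ∑ i, (expo p a i - expo p b i) ≤ L)
    (u v : Fin k → ℤ) (hu : ∀ i, u i ∈ A) (hv : ∀ i, v i ∈ A)
    (hfu : ∀ i j, i ≠ j → ¬ close p T (u i) (u j)) (hfv : ∀ i j, i ≠ j → ¬ close p T (v i) (v j))
    (hsum : ∑ i, u i = ∑ i, v i) : univ.image u ⊆ univ.image v := by
  classical
  have hne : ∀ a ∈ A, a ≠ 0 := fun a ha h => h0 (h ▸ ha)
  have hval : ∀ a ∈ A, val p (expo p a) = |a| := fun a ha =>
    val_expo' p hinj a (hne a ha) (hsub a ha)
  have hsgn : ∀ a ∈ A, a.sign * val p (expo p a) = a := by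
    intro a ha
    rw [hval a ha]
    exact Int.sign_mul_abs a
  have hcl : ∀ a b : ℤ, expo p a = expo p b → close p T a b := by
    intro a b h
    unfold close
    rw [h]
    simp
  have huinj : ∀ i j, expo p (u i) = expo p (u j) → i = j := by
    intro i j h
    by_contra hij
    exact hfu i j hij (hcl _ _ h)
  have hvinj : ∀ i j, expo p (v i) = expo p (v j) → i = j := by
    intro i j h
    by_contra hij
    exact hfv i j hij (hcl _ _ h)
  set c : (Fin n → ℕ) → ℤ := fun w => (∑ i ∈ univ.filter (fun i => expo p (u i) = w), (u i).sign) -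
    ∑ i ∈ univ.filter (fun i => expo p (v i) = w), (v i).sign with hc
  have hcu : ∀ w, (∃ i, expo p (u i) = w ∧
      ∑ i ∈ univ.filter (fun i => expo p (u i) = w), (u i).sign = (u i).sign) ∨
      (∀ i, expo p (u i) ≠ w) ∧
        ∑ i ∈ univ.filter (fun i => expo p (u i) = w), (u i).sign = 0 := by
    intro w
    by_cases h : ∃ i, expo p (u i) = w
    · obtain ⟨i, hi⟩ := h
      refine Or.inl ⟨i, hi, ?_⟩
      have : univ.filter (fun i => expo p (u i) = w) = {i} := by
        ext j
        simp only [mem_filter, mem_univ, true_and, mem_singleton]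
        exact ⟨fun h => huinj j i (h.trans hi.symm), fun h => h ▸ hi⟩
      rw [this, sum_singleton]
    · push Not at h
      refine Or.inr ⟨h, ?_⟩
      rw [filter_eq_empty_iff.2 (fun i _ => h i), sum_empty]
  have hcv : ∀ w, (∃ i, expo p (v i) = w ∧
      ∑ i ∈ univ.filter (fun i => expo p (v i) = w), (v i).sign = (v i).sign) ∨
      (∀ i, expo p (v i) ≠ w) ∧
        ∑ i ∈ univ.filter (fun i => expo p (v i) = w), (v i).sign = 0 := by
    intro w
    by_cases h : ∃ i, expo p (v i) = w
    · obtain ⟨i, hi⟩ := h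
      refine Or.inl ⟨i, hi, ?_⟩
      have : univ.filter (fun i => expo p (v i) = w) = {i} := by
        ext j
        simp only [mem_filter, mem_univ, true_and, mem_singleton]
        exact ⟨fun h => hvinj j i (h.trans hi.symm), fun h => h ▸ hi⟩
      rw [this, sum_singleton]
    · push Not at h
      refine Or.inr ⟨h, ?_⟩
      rw [filter_eq_empty_iff.2 (fun i _ => h i), sum_empty]
  have habs : ∀ z : ℤ, |z.sign| ≤ 1 := by
    intro z
    rcases lt_trichotomy z 0 with h | h | h
    · rw [Int.sign_eq_neg_one_of_neg h]; norm_num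
    · rw [h]; norm_num
    · rw [Int.sign_eq_one_of_pos h]; norm_num
  have hcK : ∀ w, |c w| ≤ K := by
    intro w
    have h1 : |∑ i ∈ univ.filter (fun i => expo p (u i) = w), (u i).sign| ≤ 1 := by
      rcases hcu w with ⟨i, _, h⟩ | ⟨_, h⟩
      · rw [h]; exact habs _
      · rw [h]; norm_num
    have h2 : |∑ i ∈ univ.filter (fun i => expo p (v i) = w), (v i).sign| ≤ 1 := by
      rcases hcv w with ⟨i, _, h⟩ | ⟨_, h⟩
      · rw [h]; exact habs _
      · rw [h]; norm_num
    have h3 : (2 : ℤ) ≤ K := by exact_mod_cast hK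
    rw [hc]
    calc |(∑ i ∈ univ.filter (fun i => expo p (u i) = w), (u i).sign) -
          ∑ i ∈ univ.filter (fun i => expo p (v i) = w), (v i).sign| ≤ 1 + 1 :=
          (abs_sub _ _).trans (add_le_add h1 h2)
      _ ≤ K := by linarith
  set X : Finset (Fin n → ℕ) := univ.image (fun i => expo p (u i)) with hX
  set Z : Finset (Fin n → ℕ) := univ.image (fun i => expo p (v i)) with hZ
  have hfib : ∀ (g : Fin k → ℤ) (hg : ∀ i, g i ∈ A) (W : Finset (Fin n → ℕ))
      (hW : ∀ i, expo p (g i) ∈ W),
      ∑ w ∈ W, (∑ i ∈ univ.filter (fun i => expo p (g i) = w), (g i).sign) * val p w =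
        ∑ i, g i := by
    intro g hg W hW
    rw [← sum_fiberwise_of_maps_to (s := univ) (t := W) (g := fun i => expo p (g i))
      (fun i _ => hW i) (fun i => g i)]
    refine sum_congr rfl (fun w _ => ?_)
    rw [sum_mul]
    refine sum_congr rfl (fun i hi => ?_)
    rw [← (mem_filter.1 hi).2]
    exact hsgn _ (hg i)
  have hE0 : ∑ w ∈ X ∪ Z, c w * val p w = 0 := by
    have h1 := hfib u hu (X ∪ Z) (fun i => mem_union_left _ (mem_image_of_mem _ (mem_univ i)))
    have h2 := hfib v hv (X ∪ Z) (fun i => mem_union_right _ (mem_image_of_mem _ (mem_univ i)))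
    rw [hc]
    simp only [sub_mul, sum_sub_distrib]
    rw [h1, h2, hsum, sub_self]
  set V := (X ∪ Z).filter (fun w => c w ≠ 0) with hV
  have hV0 : ∑ w ∈ V, c w * val p w = 0 := by
    rw [hV, sum_filter]
    refine (sum_congr rfl (fun w _ => ?_)).trans hE0
    split_ifs with h
    · rfl
    · rw [not_not] at h
      rw [h, zero_mul]
  have hXc : X.card ≤ k := by
    rw [hX]
    refine card_image_le.trans ?_
    simp
  have hZc : Z.card ≤ k := by
    rw [hZ]
    refine card_image_le.trans ?_
    simp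
  have hVc : V.card ≤ 2 * K := by
    have h1 : V.card ≤ (X ∪ Z).card := card_le_card (filter_subset _ _)
    have h2 := card_union_le X Z
    omega
  have hrep : ∀ w ∈ X ∪ Z, ∃ a ∈ A, expo p a = w := by
    intro w hw
    rcases mem_union.1 hw with h | h
    · obtain ⟨i, _, rfl⟩ := mem_image.1 h
      exact ⟨u i, hu i, rfl⟩
    · obtain ⟨i, _, rfl⟩ := mem_image.1 h
      exact ⟨v i, hv i, rfl⟩
  have hVempty : V = ∅ := by
    by_contra hVne
    have hVne' : V.Nonempty := nonempty_iff_ne_empty.2 hVne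
    obtain ⟨B, hBV, hBne, hB0, hBcl⟩ := minrel p (fun i => (hp i).one_le) V c
      (fun w hw => (mem_filter.1 hw).2) hcK hVc hVne' hV0 (by
        intro e he e' he'
        obtain ⟨a, ha, rfl⟩ := hrep e (mem_filter.1 he).1
        obtain ⟨b, hb, rfl⟩ := hrep e' (mem_filter.1 he').1
        exact hL a ha b hb) hgood
    have hXX : ∀ w ∈ B, ∀ w' ∈ B, w ∈ X → w' ∈ X → w = w' := by
      intro w hw w' hw' hwX hw'X
      obtain ⟨i, _, rfl⟩ := mem_image.1 hwX
      obtain ⟨j, _, rfl⟩ := mem_image.1 hw'X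
      by_contra hne'
      have hij : i ≠ j := fun h => hne' (by rw [h])
      exact hfu i j hij (hBcl _ hw _ hw')
    have hZZ : ∀ w ∈ B, ∀ w' ∈ B, w ∈ Z → w' ∈ Z → w = w' := by
      intro w hw w' hw' hwZ hw'Z
      obtain ⟨i, _, rfl⟩ := mem_image.1 hwZ
      obtain ⟨j, _, rfl⟩ := mem_image.1 hw'Z
      by_contra hne'
      have hij : i ≠ j := fun h => hne' (by rw [h])
      exact hfv i j hij (hBcl _ hw _ hw')
    have hpos : ∀ w, 0 < val p w := fun w => val_pos p w (fun i => (hp i).one_le)
    -- two different elements of `B`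
    have hB2 : ∃ w ∈ B, ∃ w' ∈ B, w ≠ w' := by
      obtain ⟨w, hw⟩ := hBne
      by_contra hno
      push Not at hno
      have hB1 : B = {w} := by
        ext w'
        rw [mem_singleton]
        exact ⟨fun hw' => (hno w hw w' hw').symm, fun h => h ▸ hw⟩
      rw [hB1, sum_singleton] at hB0
      rcases mul_eq_zero.1 hB0 with h | h
      · exact (mem_filter.1 (hBV hw)).2 h
      · exact (hpos w).ne' h
    -- one in `X`, one in `Z`
    have hkey : ∀ w ∈ B, ∀ w' ∈ B, w ≠ w' → w ∈ X → w' ∈ Z → False := by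
      intro w hw w' hw' hne' hwX hw'Z
      have hwZ : w ∉ Z := fun h => hne' (hZZ w hw w' hw' h hw'Z)
      have hw'X : w' ∉ X := fun h => hne' (hXX w hw w' hw' hwX h)
      have hBeq : B = {w, w'} := by
        ext z
        rw [mem_insert, mem_singleton]
        constructor
        · intro hz
          rcases mem_union.1 (mem_filter.1 (hBV hz)).1 with h | h
          · exact Or.inl (hXX z hz w hw h hwX)
          · exact Or.inr (hZZ z hz w' hw' h hw'Z)
        · rintro (h | h)
          · rw [h]; exact hw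
          · rw [h]; exact hw'
      rw [hBeq, sum_pair hne'] at hB0
      obtain ⟨i, _, hi⟩ := mem_image.1 hwX
      obtain ⟨j, _, hj⟩ := mem_image.1 hw'Z
      have hcw : |c w| = 1 := by
        rw [hc]
        simp only
        rcases hcu w with ⟨i', hi', h⟩ | ⟨h, _⟩
        · rcases hcv w with ⟨j', hj', _⟩ | ⟨_, h'⟩
          · exact absurd (hj' ▸ mem_image_of_mem (fun i => expo p (v i)) (mem_univ j')) hwZ
          · rw [h, h', sub_zero, Int.abs_sign_of_ne_zero (hne _ (hu i'))]
        · exact absurd hi (h i)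
      have hcw' : |c w'| = 1 := by
        rw [hc]
        simp only
        rcases hcv w' with ⟨j', hj', h⟩ | ⟨h, _⟩
        · rcases hcu w' with ⟨i', hi', _⟩ | ⟨_, h'⟩
          · exact absurd (hi' ▸ mem_image_of_mem (fun i => expo p (u i)) (mem_univ i')) hw'X
          · rw [h, h', zero_sub, abs_neg, Int.abs_sign_of_ne_zero (hne _ (hv j'))]
        · exact absurd hj (h j)
      have h1 : |c w * val p w| = |c w' * val p w'| := by
        have : c w * val p w = -(c w' * val p w') := by linarith
        rw [this, abs_neg]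
      rw [abs_mul, abs_mul, hcw, hcw', one_mul, one_mul, abs_of_pos (hpos w),
        abs_of_pos (hpos w')] at h1
      apply hne'
      rw [← hi, ← hj] at h1 ⊢
      rw [hval _ (hu i), hval _ (hv j)] at h1
      have h2 : (u i).natAbs = (v j).natAbs := Int.natAbs_eq_natAbs_iff.2 (abs_eq_abs.1 h1)
      unfold expo
      rw [h2]
    obtain ⟨w, hw, w', hw', hww⟩ := hB2
    rcases mem_union.1 (mem_filter.1 (hBV hw)).1 with h | h
    · rcases mem_union.1 (mem_filter.1 (hBV hw')).1 with h' | h'
      · exact hww (hXX w hw w' hw' h h')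
      · exact hkey w hw w' hw' hww h h'
    · rcases mem_union.1 (mem_filter.1 (hBV hw')).1 with h' | h'
      · exact hkey w' hw' w hw (Ne.symm hww) h' h
      · exact hww (hZZ w hw w' hw' h h')
  -- all coefficients vanish
  intro a ha
  obtain ⟨i, _, rfl⟩ := mem_image.1 ha
  have hcw : c (expo p (u i)) = 0 := by
    by_contra hno
    have : expo p (u i) ∈ V := mem_filter.2
      ⟨mem_union_left _ (mem_image_of_mem (fun i => expo p (u i)) (mem_univ i)), hno⟩
    rw [hVempty] at this
    simp at this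
  rw [hc] at hcw
  simp only at hcw
  rcases hcu (expo p (u i)) with ⟨i', hi', h⟩ | ⟨h, _⟩
  · have hii : i' = i := huinj i' i hi'
    subst hii
    rw [h] at hcw
    rcases hcv (expo p (u i')) with ⟨j, hj, h'⟩ | ⟨_, h'⟩
    · rw [h'] at hcw
      have h1 : (u i').sign = (v j).sign := by linarith
      have h2 : u i' = v j := by
        rw [← hsgn _ (hu i'), ← hsgn _ (hv j), h1, hj]
      rw [h2]
      exact mem_image_of_mem _ (mem_univ j)
    · rw [h', sub_zero] at hcw
      exact absurd (Int.sign_eq_zero_iff_zero.1 hcw) (hne _ (hu i'))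
  · exact absurd rfl (h i)

end Pool.Agent.Helper24.AS
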